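import Pool.Agent.V1132.CN.NegK

set_option autoImplicit false

/-! Let `R` be any ring, `G` any group and `m ≥ 1`. Every element of Bass's group `K_{-m}(R[G])` is
the class of an idempotent matrix over `R[ℤᵐ × G]` whose projective module has presentation matrices
controlled over `G` by integral matrices of norm arbitrarily close to `3 / √2` on `ℓ²(G)`. For an
element which does not lie in the subgroup generated by the images of the groups `K_{-m}(R[V])`,
`V` virtually cyclic, the least such norm is exactly `3 / √2`. -/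

namespace Pool.Agent.Results.MP_28303a_al.CriticalNegative

open Pool.Agent.Y75.NK TH6.PF TH6.FB TH57.Thr Pool.Agent.V1132.CN

/-- Bass's group `K_{-(m+1)}(R[G])`. -/
abbrev NK (R : Type) [Ring R] (m : ℕ) (G : GrpCat.{0}) : Type :=
  (Kneg (m + 1)).obj ((gr R).obj G)

/-- `x` is the class of an idempotent matrix `e` over `R[ℤᵐ⁺¹ × G]` such that the projective module
of `e` has a presentation matrix which is controlled over `G` by an integral matrix of norm at most
`c` on `ℓ²(G)`. -/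
def HasRep (R : Type) [Ring R] (m : ℕ) (G : GrpCat.{0}) (x : NK R m G) (c : ℝ) : Prop :=
  ∃ e : Idem (MonoidAlgebra R ((EF (m + 1)).obj G)),
    kclass R (m + 1) G e = x ∧ CtrlLE (prj (m + 1) G) e c

/-- The least norm of the control matrices over `G` of the representatives of `x`. -/
noncomputable def negNorm (R : Type) [Ring R] (m : ℕ) (G : GrpCat.{0}) (x : NK R m G) : ℝ :=
  sInf {c : ℝ | 0 ≤ c ∧ HasRep R m G x c}

theorem hasRep (R : Type) [Ring R] (m : ℕ) (G : GrpCat.{0}) (x : NK R m G) (c : ℝ)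
    (hc : 3 / Real.sqrt 2 < c) : HasRep R m G x c := by
  obtain ⟨e, he⟩ := exists_kclass R m G x
  exact ⟨e, he, ctrl_above R (m + 1) G e c hc⟩

theorem below (R : Type) [Ring R] (m : ℕ) (G : GrpCat.{0}) (x : NK R m G) (c : ℝ) (h0 : 0 ≤ c)
    (hc : c < 3 / Real.sqrt 2) (h : HasRep R m G x c) : x ∈ vcSub R (m + 1) G := by
  obtain ⟨e, rfl, he⟩ := h
  exact mem_vcSub R (m + 1) G e (ctrl_below (prj (m + 1) G) e c h0 hc he)

theorem hasRep_zero (R : Type) [Ring R] (m : ℕ) (G : GrpCat.{0}) : HasRep R m G 0 0 := by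
  refine ⟨idOne _ 0, kclass_idOne R m G 0, 0, 0, _, 0, pres_self (idOne _ 0), fun x => ?_,
    fun i => i.elim0⟩
  simp [normSq]

theorem result :
    -- every ring, every group, every degree `-(m+1)`, every element
    (∀ (R : Type) [Ring R] (m : ℕ) (G : GrpCat.{0}) (x : NK R m G),
      (∀ c : ℝ, 3 / Real.sqrt 2 < c → HasRep R m G x c) ∧
      0 ≤ negNorm R m G x ∧ negNorm R m G x ≤ 3 / Real.sqrt 2 ∧
      (x ∉ vcSub R (m + 1) G → negNorm R m G x = 3 / Real.sqrt 2)) ∧
    -- above `3 / √2` a bound on the norm is no restriction, below it the conclusion holds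
    (∀ (R : Type) [Ring R] (m : ℕ) (G : GrpCat.{0}) (c : ℝ),
      (3 / Real.sqrt 2 < c →
        ((∀ x : NK R m G, HasRep R m G x c → x ∈ vcSub R (m + 1) G) ↔ vcSub R (m + 1) G = ⊤)) ∧
      (0 ≤ c → c < 3 / Real.sqrt 2 →
        ∀ x : NK R m G, HasRep R m G x c → x ∈ vcSub R (m + 1) G)) ∧
    -- `G` torsion-free, `K_{-(m+1)}(R[C]) = 0` for torsion-free cyclic groups `C`
    (∀ (R : Type) [Ring R] (m : ℕ) (G : GrpCat.{0}), TF G →
      (∀ C : GrpCat.{0}, IsCyclic C → TF C → Subsingleton (NK R m C)) →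
      (∀ x : NK R m G, (x = 0 ∧ negNorm R m G x = 0) ∨
        (x ≠ 0 ∧ negNorm R m G x = 3 / Real.sqrt 2)) ∧
      (∀ c : ℝ, 3 / Real.sqrt 2 < c →
        ((∀ x : NK R m G, HasRep R m G x c → x = 0) ↔ Subsingleton (NK R m G)))) := by
  have thr : ∀ (R : Type) [Ring R] (m : ℕ) (G : GrpCat.{0}) (x : NK R m G),
      x ∉ vcSub R (m + 1) G → negNorm R m G x = 3 / Real.sqrt 2 := by
    intro R _ m G x hx
    refine sInf_thr (fun c hc => hc.1) _ (fun c hc => ⟨(sq_gt_of_gt hc).1.le,
      hasRep R m G x c hc⟩) ?_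
    rintro c ⟨h0, h⟩
    by_contra hlt
    exact hx (below R m G x c h0 (not_le.1 hlt) h)
  refine ⟨fun R _ m G x => ⟨hasRep R m G x, Real.sInf_nonneg fun c hc => hc.1,
    sInf_le_thr (fun c hc => hc.1) _ fun c hc => ⟨(sq_gt_of_gt hc).1.le, hasRep R m G x c hc⟩,
    thr R m G x⟩, fun R _ m G c => ⟨fun hc => ⟨fun h => ?_, fun h x _ => h ▸ AddSubgroup.mem_top x⟩,
    fun h0 hc x h => below R m G x c h0 hc h⟩, fun R _ m G hG hR => ?_⟩
  · rw [eq_top_iff]
    intro x _
    exact h x (hasRep R m G x c hc)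
  · have h0 : negNorm R m G 0 = 0 :=
      sInf_zero (fun c hc => hc.1) ⟨le_rfl, hasRep_zero R m G⟩
    refine ⟨fun x => ?_, fun c hc => ⟨fun h => ⟨fun x y => ?_⟩, fun h x _ => h.elim x 0⟩⟩
    · by_cases hx : x = 0
      · subst hx
        exact Or.inl ⟨rfl, h0⟩
      · refine Or.inr ⟨hx, sInf_thr (fun c hc => hc.1) _ (fun c hc => ⟨(sq_gt_of_gt hc).1.le,
          hasRep R m G x c hc⟩) ?_⟩
        rintro c ⟨h1, e, rfl, he⟩
        by_contra hlt
        exact hx (eq_zero R (m + 1) G hG hR e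
          (ctrl_below (prj (m + 1) G) e c h1 (not_le.1 hlt) he))
    · rw [h x (hasRep R m G x c hc), h y (hasRep R m G y c hc)]

end Pool.Agent.Results.MP_28303a_al.CriticalNegative
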