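import Pool.Agent.V11187.DN.Thm

set_option autoImplicit false

/-!
# Homomorphisms on the negative `K`-groups of `K[G]` given by cyclic cocycles

Let `K` be a field of characteristic zero (a regular ring) and `G` a torsion-free group. If
`K_{-m}(K[G]) = 0` then all homomorphisms from it to vector spaces vanish. Bass's group `K_{-m}(K[G])`
is a quotient of `K₀(K[ℤᵐ × G])`; we consider the homomorphisms
`χ : K_{-m}(K[G]) → M` which are given by a cycle `(Ω, δ, T)` in the sense of Connes of dimension
`2 n ≥ 2` over `K[ℤᵐ × G]`: `χ` maps the class of an idempotent matrix `e` over `K[ℤᵐ × G]` to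
`T (e (δ e) ^ (2 n))` (these are the components of the Chern character). We prove `χ = 0`

* for the torsion-free groups `G` all of whose finitely generated subgroups are residually finite (for
instance all torsion-free linear groups), if the values of the cycle lie in a finitely generated
group (this is the starting result `EvenCyclesFiniteQuotients` applied to `ℤᵐ × G`);
* for the groups `G` such that all `h ≠ 1` are detected (`DetF`), if the values of the cycle on the
tuples of elements of `ℤᵐ × G` with product `1` lie in the module generated by a finite set over a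
finitely generated subring of `K`; the values on the other tuples are arbitrary.

`DetF G h`: every finitely generated subgroup of `G` containing `h` has a homomorphism to a group
`π / [R, R]` with `TreeFn π R` which maps `h` to an element of infinite order. `TreeFn π R`: `π` acts by
automorphisms on a tree, the elements of `R` which fix a vertex have finite order, and the elements
which fix a vertex and have infinite order modulo `R` satisfy `Fn` in `π / R`; `Fn Q g`: there is a
function `l : Q → ℤ` which is additive on the centraliser of `g` with `l(g) ≠ 0`. So `π` may be any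
group acting on a tree with torsion stabilizers, `R` any normal subgroup of `π` (`π / R` is arbitrary).
-/

namespace Pool.Agent.Results.MP_28303a_al.CycleHomomorphisms

open Pool.Agent.Y75.NK (Kneg gr EF Idem kclass)
open Pool.Agent.V11187.DG (Cyc onI value)
open Pool.Agent.V11187.DT (DetF)
open Pool.Agent.V11187.DN (RF)

/-- The homomorphism `χ` on `K_{-m}(K[G])` is given by the cycle `(Ω, δ, T)` of dimension `2 n` over
`K[ℤᵐ × G]`. -/
def GivenBy {K : Type} [Field K] (m : ℕ) (G : GrpCat.{0}) {M : Type} [AddCommGroup M] [Module K M]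
    (χ : (Kneg m).obj ((gr K).obj G) →+ M) {Ω : Type} [Ring Ω] [Algebra K Ω]
    (𝒜 : ℕ → Submodule K Ω) [GradedAlgebra 𝒜] (δ : Ω →ₗ[K] Ω) (T : Ω →ₗ[K] M) (n : ℕ)
    (ρ : MonoidAlgebra K ((EF m).obj G) →ₐ[K] Ω) : Prop :=
  Cyc (2 * n) 𝒜 δ T ∧ (∀ a, ρ a ∈ 𝒜 0) ∧
    ∀ e : Idem (MonoidAlgebra K ((EF m).obj G)),
      χ (kclass K m G e) = onI δ T (ρ : MonoidAlgebra K ((EF m).obj G) →+* Ω) n e.e

/-- The values of the cycle lie in a finitely generated group. -/
def FGValues {K : Type} [Field K] {G : Type} [Group G] {Ω : Type} [Ring Ω] [Algebra K Ω]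
    {M : Type} [AddCommGroup M] [Module K M] (δ : Ω →ₗ[K] Ω) (T : Ω →ₗ[K] M) (N : ℕ)
    (ρ : MonoidAlgebra K G →ₐ[K] Ω) : Prop :=
  ∃ F : Finset M, ∀ (a : G) (l : List G), l.length = N →
    value δ T ρ a l ∈ AddSubgroup.closure (F : Set M)

/-- The values of the cycle on the tuples with product `1` lie in the module generated by a finite set
over a finitely generated subring of `K`. -/
def FinTypeAtOne {K : Type} [Field K] {G : Type} [Group G] {Ω : Type} [Ring Ω] [Algebra K Ω]
    {M : Type} [AddCommGroup M] [Module K M] (δ : Ω →ₗ[K] Ω) (T : Ω →ₗ[K] M) (N : ℕ)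
    (ρ : MonoidAlgebra K G →ₐ[K] Ω) : Prop :=
  ∃ (s : Finset K) (F : Finset M), ∀ (a : G) (l : List G), l.length = N → a * l.prod = 1 →
    value δ T ρ a l ∈ Submodule.span (Algebra.adjoin ℤ (s : Set K)) (F : Set M)

/-- Homomorphisms on `K_{-m}(K[G])`, `m ≥ 0`, which are given by a cycle of dimension `2 n ≥ 2` over
`K[ℤᵐ × G]` vanish, (1) if `G` is torsion-free, its finitely generated subgroups are residually finite
and the values are in a finitely generated group, and (2) if all elements `h ≠ 1` of `G` are detected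
and the values on the tuples with product `1` are of finite type. -/
theorem result (K : Type) [Field K] [CharZero K] (m : ℕ) (G : GrpCat.{0})
    (hG : (∀ g : G, IsOfFinOrder g → g = 1) ∧ (∀ H : Subgroup G, H.FG → RF H) ∨
      ∀ h : G, h ≠ 1 → DetF G h)
    (M : Type) [AddCommGroup M] [Module K M] (χ : (Kneg m).obj ((gr K).obj G) →+ M)
    (Ω : Type) [Ring Ω] [Algebra K Ω] (𝒜 : ℕ → Submodule K Ω) [GradedAlgebra 𝒜]
    (δ : Ω →ₗ[K] Ω) (T : Ω →ₗ[K] M) (n : ℕ) (hn : 1 ≤ n)
    (ρ : MonoidAlgebra K ((EF m).obj G) →ₐ[K] Ω) (hχ : GivenBy m G χ 𝒜 δ T n ρ)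
    (hF : FGValues δ T (2 * n) ρ ∨ (∀ h : G, h ≠ 1 → DetF G h) ∧ FinTypeAtOne δ T (2 * n) ρ) :
    χ = 0 := by
  obtain ⟨hc, hρ, hχ⟩ := hχ
  have key : ∀ e : Idem (MonoidAlgebra K ((EF m).obj G)),
      onI δ T (ρ : MonoidAlgebra K ((EF m).obj G) →+* Ω) n e.e = 0 := by
    intro e
    have hdet : (∀ h : G, h ≠ 1 → DetF G h) → FinTypeAtOne δ T (2 * n) ρ →
        onI δ T (ρ : MonoidAlgebra K ((EF m).obj G) →+* Ω) n e.e = 0 := by
      rintro hG ⟨s, F, hF⟩
      exact Pool.Agent.V11187.DG.onI_zero
        (fun g hg => (Pool.Agent.V11187.DN.det_EF m G hG g hg).loc) e.e e.idem 𝒜 δ T n hn hc ρ hρ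
        s F (fun a l hl hal => hF _ _ (by rw [List.length_map]; exact hl) (by
          have h5 : ((l.prod : Pool.Agent.V11187.DG.suppE e.e) : (EF m).obj G) =
              (l.map Subtype.val).prod := map_list_prod (Subgroup.subtype _) l
          rw [← h5, ← Subgroup.coe_mul, hal]
          rfl))
    rcases hF with ⟨F, hF⟩ | ⟨hD, hF⟩
    · rcases hG with ⟨htf, hrf⟩ | hD
      · exact (Pool.Agent.Results.MP_1a2884_al.EvenCyclesFiniteQuotients.result K
          ((EF m).obj G) (Fin e.n) e.e e.idem Ω 𝒜 M δ T n hn
          ⟨hc.deg, hc.sq, hc.leibniz, hc.closed, hc.trace, hc.dim⟩ ρ hρ).2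
          (Pool.Agent.V11187.DN.tf_EF m G htf)
          (Or.inr fun H hH => Pool.Agent.V11187.DN.rf_EF m G hrf H hH) F hF
      · refine hdet hD ⟨∅, F, fun a l hl _ => ?_⟩
        have h1 : AddSubgroup.closure (F : Set M) ≤
            (Submodule.span (Algebra.adjoin ℤ ((∅ : Finset K) : Set K)) (F : Set M)).toAddSubgroup :=
          (AddSubgroup.closure_le _).2 Submodule.subset_span
        exact h1 (hF _ _ hl)
    · exact hdet hD hF
  apply AddMonoidHom.ext
  intro x
  obtain ⟨e, f, rfl⟩ := Pool.Agent.Y75.NK.kclass_generate K m G x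
  rw [map_sub, hχ, hχ, key, key, sub_zero]
  rfl

end Pool.Agent.Results.MP_28303a_al.CycleHomomorphisms
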